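import Pool.Agent.Lib.MP_688fd0_co.ASY.TB.Iface

/-!
TB-HOLE and TB-FLIP.
-/

set_option autoImplicit false

namespace Pool.Agent.Lib.MP_688fd0_co.ASY.H63

open Classical
open Pool.Agent.Lib.MP_688fd0_co.LP (IsP Conn Cyc Symm cay)
open Pool.Agent.Lib.MP_688fd0_co.LIN

universe u

/-- TB-HOLE -/
theorem hole (hnear : NearStatement.{u}) : HoleStatement.{u} := by
  intro V _ G H r w D γ hO x y k s hγ hs h1 h2 hky hx hy hxy hmin z hz hzc hz1 hz2
  obtain ⟨n1, -, -, n4, -, -, -⟩ := hnear V G r w D γ hO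
  have hc : G.Connected := hO.vt.conn
  have hgeo := hO.geo
  obtain ⟨hzD, hzn⟩ := n1 z hz
  have hy4 := n4 k s y h1 h2 (by rw [hγ, hs])
  obtain ⟨hyom, -, hyk⟩ := hy4
  obtain ⟨hyD, hyn⟩ := n1 y hyom
  have hsk : s ≤ (G.dist (γ 0) y - k) + 2 * w := by
    have a1 := hgeo k (G.dist (γ 0) y) hky hyD
    have a2 := hc.dist_triangle (u := γ k) (v := γ (G.dist (γ 0) y)) (w := y)
    have a3 : G.dist (γ (G.dist (γ 0) y)) y = G.dist y (γ (G.dist (γ 0) y)) := SimpleGraph.dist_comm
    rw [hγ] at a1 a2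
    omega
  by_cases hzr : H.Reachable x z
  · have hzy : ¬ H.Reachable z y := fun h => hxy (hzr.trans h)
    have b0 := hmin z hzc y hy hzy
    have a1 := hgeo (G.dist (γ 0) z) (G.dist (γ 0) y) (by omega) hyD
    have a2 := hc.dist_triangle (u := z) (v := γ (G.dist (γ 0) z)) (w := y)
    have a3 := hc.dist_triangle (u := γ (G.dist (γ 0) z)) (v := γ (G.dist (γ 0) y)) (w := y)
    have a4 : G.dist (γ (G.dist (γ 0) y)) y = G.dist y (γ (G.dist (γ 0) y)) := SimpleGraph.dist_comm
    omega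
  · have b0 := hmin x hx z hzc hzr
    have a1 := hgeo k (G.dist (γ 0) z) (by omega) hzD
    have a2 := hc.dist_triangle (u := γ k) (v := γ (G.dist (γ 0) z)) (w := z)
    have a3 : G.dist (γ (G.dist (γ 0) z)) z = G.dist z (γ (G.dist (γ 0) z)) := SimpleGraph.dist_comm
    rw [hγ] at a1 a2
    omega

/-- TB-FLIP -/
theorem flip : FlipStatement.{u} := by
  intro V _ G r w D γ hO _
  have hc : G.Connected := hO.vt.conn
  have hgeo := hO.geo
  have hlong := hO.long
  refine ⟨⟨hO.vt, hO.w_eq, hO.lin, ?_, hO.long⟩, ?_, ?_⟩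
  · intro i j hij hj
    have := hgeo (D - j) (D - i) (by omega) (by omega)
    rw [SimpleGraph.dist_comm] at this
    simp only
    omega
  · ext x
    simp only [om, Finset.mem_filter, Finset.mem_univ, true_and]
    constructor
    · rintro ⟨t, h1, h2, h3⟩
      exact ⟨D - t, by omega, by omega, h3⟩
    · rintro ⟨t, h1, h2, h3⟩
      refine ⟨D - t, by omega, by omega, ?_⟩
      rw [show D - (D - t) = t by omega]
      exact h3
  · intro x hx
    simp only [om, Finset.mem_filter, Finset.mem_univ, true_and] at hx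
    obtain ⟨t, h1, h2, h3⟩ := hx
    have a0 := hgeo 0 D (by omega) le_rfl
    have a1 := hgeo 0 t (by omega) (by omega)
    have a2 := hgeo t D (by omega) le_rfl
    have a3 := hc.dist_triangle (u := γ 0) (v := x) (w := γ D)
    have a4 : G.dist x (γ D) = G.dist (γ D) x := SimpleGraph.dist_comm
    have a5 := hc.dist_triangle (u := γ 0) (v := γ t) (w := x)
    have a6 : G.dist (γ t) x = G.dist x (γ t) := SimpleGraph.dist_comm
    have a7 := hc.dist_triangle (u := γ D) (v := γ t) (w := x)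
    have a8 : G.dist (γ D) (γ t) = G.dist (γ t) (γ D) := SimpleGraph.dist_comm
    refine ⟨by omega, by omega⟩

end Pool.Agent.Lib.MP_688fd0_co.ASY.H63
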